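import Mathlib

/-!
# Abelian coverings of the projective plane: definitions
-/

set_option autoImplicit false

namespace Pool.Agent.Q63.PC

open Multiplicative

/-- For a character `a` of `(ℤ/m)^s` and the degrees `d i` of the branch curves: `∑ d i * a i`, with the
representatives of `a i` in `{0, …, m-1}`. It is `m` times the degree of the line bundle `L_a`. -/
def num {m s : ℕ} (d : Fin s → ℕ) (a : Fin s → ZMod m) : ℕ := ∑ i, d i * (a i).val

/-- The total degree of the branch curve of `X / ker a`. -/
def branch {m s : ℕ} (d : Fin s → ℕ) (a : Fin s → ZMod m) : ℕ := ∑ i with a i ≠ 0, d i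

/-- `v` is invariant under the kernel of the character `a`. -/
def KerFixed {m s : ℕ} {V : Type} [AddCommGroup V] [Module ℂ V]
    (ρ : Representation ℂ (Multiplicative (Fin s → ZMod m)) V) (a : Fin s → ZMod m) (v : V) : Prop :=
  ∀ h : Fin s → ZMod m, ∑ i, a i * h i = 0 → ρ (ofAdd h) v = v

/-- `v` is an eigenvector for the character `a`. -/
def Eigen {m s : ℕ} {V : Type} [AddCommGroup V] [Module ℂ V] (ψ : AddChar (ZMod m) ℂ)
    (ρ : Representation ℂ (Multiplicative (Fin s → ZMod m)) V) (a : Fin s → ZMod m) (v : V) : Prop :=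
  ∀ h : Fin s → ZMod m, ρ (ofAdd h) v = ψ (∑ i, a i * h i) • v

/-- `X` is (a desingularisation of) the maximal abelian covering, of exponent dividing `m`, of the
complex projective plane, branched over the smooth curves `D_i` of degrees `d i`, `i < s`, whose union has normal
crossings. `(ℤ/m)^s` acts on `X`; the `i`-th generator acts as the canonical generator of the inertia
group of `D_i`. `V` is `CH_0(X)_0 ⊗ ℂ` (zero-cycles of degree zero; the Albanese variety is zero) and
`W = H^{2,0}(X)`. -/
structure PlaneCover {m s : ℕ} (d : Fin s → ℕ) (ψ : AddChar (ZMod m) ℂ) {V W : Type}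
    [AddCommGroup V] [Module ℂ V] [AddCommGroup W] [Module ℂ W]
    (ρ : Representation ℂ (Multiplicative (Fin s → ZMod m)) V)
    (τ : Representation ℂ (Multiplicative (Fin s → ZMod m)) W) : Prop where
  /-- the element `(d i)` acts trivially: the only relation between the inertia groups -/
  relation : ∀ v, ρ (ofAdd fun i => (d i : ZMod m)) v = v
  /-- `H^{2,0}(X)_a = H^0(P^2, K + L_a)`, which is nonzero if `deg L_a ≥ 3` (Pardini) -/
  forms : ∀ a : Fin s → ZMod m, ∑ i, a i * (d i : ZMod m) = 0 → 3 * m ≤ num d a →
    ∃ w : W, w ≠ 0 ∧ Eigen ψ τ a w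
  /-- `X / ker a` is a log del Pezzo surface, hence rational, if the degree of the branch curve is at
  most three -/
  three : ∀ a : Fin s → ZMod m, branch d a ≤ 3 → ∀ v, KerFixed ρ a v → v = 0
  /-- double planes branched over a quartic curve with normal crossings are rational -/
  quartic : ∀ (a : Fin s → ZMod m) (i : Fin s), d i = 4 → 2 * a i = 0 →
    (∀ l, l ≠ i → a l = 0) → ∀ v, KerFixed ρ a v → v = 0
  /-- double planes branched over the union of a cubic and a line are rational -/
  cubic : ∀ (a : Fin s → ZMod m) (i j : Fin s), i ≠ j → d i = 3 → d j = 1 → 2 * a i = 0 → 2 * a j = 0 →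
    (∀ l, l ≠ i → l ≠ j → a l = 0) → ∀ v, KerFixed ρ a v → v = 0
  /-- `y ^ m = (f / g) ^ b` with quadratic forms `f, g`: a family of conics, hence rational -/
  conics : ∀ (a : Fin s → ZMod m) (i j : Fin s), i ≠ j → d i = 2 → d j = 2 → a i = -a j →
    (∀ l, l ≠ i → l ≠ j → a l = 0) → ∀ v, KerFixed ρ a v → v = 0
  /-- four lines, or a conic and two lines: `X / ker a` is dominated by a product of curves (it is a
  quotient of a Fermat surface, or the projection from the intersection point of the two lines is isotrivial), so its motive is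
  finite-dimensional, and the part of the motive for the characters `u a`, `u` a unit, has
  no `H^{2,0}` if all the `L_{u a}` have degree two; so it contributes nothing to the zero-cycles of degree zero -/
  lines : ∀ a : Fin s → ZMod m, branch d a = 4 →
    (∃ i j, i ≠ j ∧ d i = 1 ∧ d j = 1 ∧ a i ≠ 0 ∧ a j ≠ 0) →
    (∀ u : (ZMod m)ˣ, num d (fun i => (u : ZMod m) * a i) = 2 * m) → ∀ v, Eigen ψ ρ a v → v = 0

end Pool.Agent.Q63.PC
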