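import Mathlib

set_option autoImplicit false

namespace Pool.Agent.Q63.PC

open Polynomial

/-- A rational relation between roots of unity is preserved by the Galois group. -/
theorem galois {m : ℕ} [NeZero m] {ψ : AddChar (ZMod m) ℂ} (hψ : ψ.IsPrimitive) {ι : Type}
    (S : Finset ι) (c : ι → ℚ) (f : ι → ZMod m) (u : (ZMod m)ˣ)
    (h : ∑ i ∈ S, (c i : ℂ) * ψ (f i) = 0) : ∑ i ∈ S, (c i : ℂ) * ψ (u * f i) = 0 := by
  set ζ : ℂ := ψ 1 with hζ
  have hval : ∀ x : ZMod m, ψ x = ζ ^ x.val := by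
    intro x
    have : x = x.val • (1 : ZMod m) := by rw [nsmul_eq_mul, ZMod.natCast_zmod_val, mul_one]
    conv_lhs => rw [this]
    rw [AddChar.map_nsmul_eq_pow]
  have hprim : IsPrimitiveRoot ζ m := by
    refine ⟨?_, fun l hl => ?_⟩
    · rw [hζ, ← AddChar.map_nsmul_eq_pow]
      simp
    · rw [hζ, ← AddChar.map_nsmul_eq_pow, hψ.zmod_char_eq_one_iff m] at hl
      rw [nsmul_eq_mul, mul_one] at hl
      exact (ZMod.natCast_eq_zero_iff _ _).1 hl
  let P : ℚ[X] := ∑ i ∈ S, C (c i) * X ^ (f i).val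
  have hP : ∀ z : ℂ, aeval z P = ∑ i ∈ S, (c i : ℂ) * z ^ (f i).val := by
    intro z
    simp only [P, map_sum, map_mul, aeval_C, map_pow, aeval_X]
    rfl
  have h0 : aeval ζ P = 0 := by
    rw [hP, ← h]
    exact Finset.sum_congr rfl fun i _ => by rw [hval]
  have hm : 0 < m := Nat.pos_of_ne_zero (NeZero.ne m)
  have hdvd : cyclotomic m ℚ ∣ P := by
    rw [cyclotomic_eq_minpoly_rat hprim hm]
    exact minpoly.dvd ℚ ζ h0
  have hprim' : IsPrimitiveRoot (ζ ^ (u : ZMod m).val) m :=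
    hprim.pow_of_coprime _ (ZMod.val_coe_unit_coprime u)
  have h1 : aeval (ζ ^ (u : ZMod m).val) P = 0 := by
    obtain ⟨Q, hQ⟩ := hdvd
    rw [hQ, map_mul, cyclotomic_eq_minpoly_rat hprim' hm, minpoly.aeval, zero_mul]
  rw [hP] at h1
  rw [← h1]
  refine Finset.sum_congr rfl fun i _ => ?_
  congr 1
  rw [← pow_mul]
  have : (u : ZMod m) * f i = ((u : ZMod m).val * (f i).val) • (1 : ZMod m) := by
    rw [nsmul_eq_mul, mul_one, Nat.cast_mul, ZMod.natCast_zmod_val, ZMod.natCast_zmod_val]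
  rw [this, AddChar.map_nsmul_eq_pow]

end Pool.Agent.Q63.PC
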