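import Mathlib
import Pool.Agent.Q63.PC.Defs

set_option autoImplicit false

namespace Pool.Agent.Q63.PC

variable {m s : ℕ} [NeZero m] {d : Fin s → ℕ}

lemma dvd_num {a : Fin s → ZMod m} (ha : ∑ i, a i * (d i : ZMod m) = 0) : m ∣ num d a := by
  rw [← ZMod.natCast_eq_zero_iff]
  unfold num
  push_cast
  rw [← ha]
  refine Finset.sum_congr rfl fun i _ => ?_
  rw [ZMod.natCast_zmod_val, mul_comm]

lemma num_add_neg (a : Fin s → ZMod m) : num d a + num d (-a) = branch d a * m := by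
  unfold num branch
  rw [← Finset.sum_add_distrib, Finset.sum_filter, Finset.sum_mul]
  refine Finset.sum_congr rfl fun i _ => ?_
  rw [Pi.neg_apply, ZMod.neg_val]
  by_cases h : a i = 0
  · simp [h]
  · rw [if_neg h, if_pos h, ← mul_add]
    congr 1
    have := (a i).val_lt
    omega

omit [NeZero m] in
lemma branch_unit (a : Fin s → ZMod m) (u : (ZMod m)ˣ) : branch d (fun i => (u : ZMod m) * a i) = branch d a := by
  unfold branch
  congr 1
  ext i
  simp

/-- multisets with sum four -/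
lemma four {ι : Type} [DecidableEq ι] (T : Finset ι) (f : ι → ℕ) (hf : ∀ i ∈ T, 1 ≤ f i)
    (h : ∑ i ∈ T, f i = 4) :
    (∃ i ∈ T, ∃ j ∈ T, i ≠ j ∧ f i = 1 ∧ f j = 1) ∨ (∃ i, T = {i} ∧ f i = 4) ∨
      (∃ i j, i ≠ j ∧ T = {i, j} ∧ f i = 3 ∧ f j = 1) ∨
      ∃ i j, i ≠ j ∧ T = {i, j} ∧ f i = 2 ∧ f j = 2 := by
  rcases lt_or_ge 2 T.card with hc | hc
  · obtain ⟨i, hi, j, hj, k, hk, hij, hik, hjk⟩ := Finset.two_lt_card.1 hc
    have h1 : f i + f j + f k ≤ 4 := by
      rw [← h]
      have : ({i, j, k} : Finset ι) ⊆ T := by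
        intro x hx
        simp only [Finset.mem_insert, Finset.mem_singleton] at hx
        rcases hx with rfl | rfl | rfl <;> assumption
      refine le_trans (le_of_eq ?_) (Finset.sum_le_sum_of_subset this)
      rw [Finset.sum_insert (by simp [hij, hik]), Finset.sum_insert (by simp [hjk]),
        Finset.sum_singleton]
      ring
    have h2 := hf i hi
    have h3 := hf j hj
    have h4 := hf k hk
    left
    by_cases a1 : f i = 1
    · by_cases a2 : f j = 1
      · exact ⟨i, hi, j, hj, hij, a1, a2⟩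
      · exact ⟨i, hi, k, hk, hik, a1, by omega⟩
    · exact ⟨j, hj, k, hk, hjk, by omega, by omega⟩
  · have hne : T.card ≠ 0 := by
      intro h0
      rw [Finset.card_eq_zero] at h0
      subst h0
      simp at h
    have hc' : T.card = 1 ∨ T.card = 2 := by omega
    rcases hc' with hc | hc
    · obtain ⟨i, rfl⟩ := Finset.card_eq_one.1 hc
      rw [Finset.sum_singleton] at h
      exact Or.inr (Or.inl ⟨i, rfl, h⟩)
    · obtain ⟨i, j, hij, rfl⟩ := Finset.card_eq_two.1 hc
      rw [Finset.sum_insert (by simpa using hij), Finset.sum_singleton] at h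
      have h2 := hf i (by simp)
      have h3 := hf j (by simp)
      have : (f i = 3 ∧ f j = 1) ∨ (f i = 1 ∧ f j = 3) ∨ (f i = 2 ∧ f j = 2) := by omega
      rcases this with h4 | h4 | h4
      · exact Or.inr (Or.inr (Or.inl ⟨i, j, hij, rfl, h4.1, h4.2⟩))
      · exact Or.inr (Or.inr (Or.inl ⟨j, i, hij.symm, Finset.pair_comm i j, h4.2, h4.1⟩))
      · exact Or.inr (Or.inr (Or.inr ⟨i, j, hij, rfl, h4.1, h4.2⟩))

lemma two_mul_eq_zero {x : ZMod m} (h : 2 * x.val = m) : 2 * x = 0 := by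
  have h1 : ((2 * x.val : ℕ) : ZMod m) = 0 := by rw [h, ZMod.natCast_self]
  push_cast at h1
  rwa [ZMod.natCast_zmod_val] at h1

/-- `3 x + y = 2` for all conjugates implies `x = y = 1 / 2` -/
lemma three_one {x y : ZMod m} (hx : x ≠ 0) (h : ∀ u : (ZMod m)ˣ, 3 * ((u : ZMod m) * x).val + ((u : ZMod m) * y).val = 2 * m) :
    2 * x = 0 ∧ 2 * y = 0 := by
  obtain ⟨e, he, u, hu, hxe⟩ := ZMod.eq_unit_mul_divisor x
  obtain ⟨u, rfl⟩ := hu
  have h1 := h u⁻¹
  have h2 : ((u⁻¹ : (ZMod m)ˣ) : ZMod m) * x = (e : ZMod m) := by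
    rw [hxe, ← mul_assoc]
    simp
  have hm : 0 < m := Nat.pos_of_ne_zero (NeZero.ne m)
  have he0 : e ≠ m := by
    rintro rfl
    apply hx
    rw [hxe]
    simp
  have helt : e < m := lt_of_le_of_ne (Nat.le_of_dvd hm he) he0
  rw [h2, ZMod.val_natCast, Nat.mod_eq_of_lt helt] at h1
  have h3 := (((u⁻¹ : (ZMod m)ˣ) : ZMod m) * y).val_lt
  obtain ⟨k, hk⟩ := he
  have hk3 : k < 3 := by
    by_contra hcon
    have : e * 3 ≤ e * k := Nat.mul_le_mul_left e (by omega)
    omega
  have hk2 : k = 2 := by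
    interval_cases k
    · omega
    · omega
    · rfl
  subst hk2
  have hx2 : 2 * x = 0 := by
    rw [hxe]
    have : (2 : ZMod m) * (u * (e : ZMod m)) = u * ((e * 2 : ℕ) : ZMod m) := by push_cast; ring
    rw [this, ← hk]
    simp
  refine ⟨hx2, ?_⟩
  have h5 : (2 * (((u⁻¹ : (ZMod m)ˣ) : ZMod m) * y).val : ℕ) = m := by omega
  have h6 := two_mul_eq_zero h5
  have h7 : (u : ZMod m) * (2 * (((u⁻¹ : (ZMod m)ˣ) : ZMod m) * y)) = 2 * y := by
    have : (u : ZMod m) * (2 * (((u⁻¹ : (ZMod m)ˣ) : ZMod m) * y)) = 2 * ((u * ((u⁻¹ : (ZMod m)ˣ) : ZMod m)) * y) := by ring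
    rw [this]
    simp
  rw [← h7, h6, mul_zero]

/-- the classification of the characters whose conjugates have no two-forms -/
theorem classify (hd : ∀ i, 1 ≤ d i) {a : Fin s → ZMod m} (ha : ∑ i, a i * (d i : ZMod m) = 0)
    (hlt : ∀ u : (ZMod m)ˣ, num d (fun i => (u : ZMod m) * a i) < 3 * m) :
    branch d a ≤ 3 ∨
    (branch d a = 4 ∧ (∃ i j, i ≠ j ∧ d i = 1 ∧ d j = 1 ∧ a i ≠ 0 ∧ a j ≠ 0) ∧
      ∀ u : (ZMod m)ˣ, num d (fun i => (u : ZMod m) * a i) = 2 * m) ∨
    (∃ i, d i = 4 ∧ 2 * a i = 0 ∧ ∀ l, l ≠ i → a l = 0) ∨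
    (∃ i j, i ≠ j ∧ d i = 3 ∧ d j = 1 ∧ 2 * a i = 0 ∧ 2 * a j = 0 ∧ ∀ l, l ≠ i → l ≠ j → a l = 0) ∨
    ∃ i j, i ≠ j ∧ d i = 2 ∧ d j = 2 ∧ a i = -a j ∧ ∀ l, l ≠ i → l ≠ j → a l = 0 := by
  classical
  have hm : 0 < m := Nat.pos_of_ne_zero (NeZero.ne m)
  have hau : ∀ u : (ZMod m)ˣ, ∑ i, ((u : ZMod m) * a i) * (d i : ZMod m) = 0 := by
    intro u
    have : ∑ i, ((u : ZMod m) * a i) * (d i : ZMod m) = (u : ZMod m) * ∑ i, a i * (d i : ZMod m) := by
      rw [Finset.mul_sum]
      exact Finset.sum_congr rfl fun i _ => by ring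
    rw [this, ha, mul_zero]
  have hle : ∀ u : (ZMod m)ˣ, num d (fun i => (u : ZMod m) * a i) ≤ 2 * m := by
    intro u
    obtain ⟨k, hk⟩ := dvd_num (hau u)
    have := hlt u
    rw [hk] at this ⊢
    have hk3 : k < 3 := by
      by_contra hcon
      have : m * 3 ≤ m * k := Nat.mul_le_mul_left m (by omega)
      omega
    nlinarith
  have hneg : ∀ u : (ZMod m)ˣ, num d (fun i => (u : ZMod m) * a i) + num d (fun i => ((-u : (ZMod m)ˣ) : ZMod m) * a i) =
      branch d a * m := by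
    intro u
    rw [← branch_unit a u, ← num_add_neg]
    congr 2
    funext i
    simp
  have hb : branch d a ≤ 4 := by
    have h1 := hneg 1
    have h2 := hle 1
    have h3 := hle (-1)
    by_contra hcon
    have : 5 * m ≤ branch d a * m := Nat.mul_le_mul_right m (by omega)
    omega
  by_cases hb3 : branch d a ≤ 3
  · exact Or.inl hb3
  right
  have hb4 : branch d a = 4 := by omega
  have heq : ∀ u : (ZMod m)ˣ, num d (fun i => (u : ZMod m) * a i) = 2 * m := by
    intro u
    have h1 := hneg u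
    have h2 := hle u
    have h3 := hle (-u)
    rw [hb4] at h1
    omega
  have hnum : num d a = 2 * m := by
    have := heq 1
    simpa using this
  have hsupp : ∀ {T : Finset (Fin s)}, Finset.univ.filter (fun i => a i ≠ 0) = T → ∀ l, l ∉ T → a l = 0 := by
    rintro T rfl l hl
    by_contra h
    exact hl (by simp [h])
  have hsum : ∀ {T : Finset (Fin s)}, Finset.univ.filter (fun i => a i ≠ 0) = T → ∀ u : (ZMod m)ˣ,
      ∑ i ∈ T, d i * ((u : ZMod m) * a i).val = 2 * m := by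
    rintro T hT u
    rw [← heq u]
    unfold num
    refine Finset.sum_subset (Finset.subset_univ _) fun l _ hl => ?_
    rw [hsupp hT l hl]
    simp
  rcases four _ d (fun i _ => hd i) hb4 with ⟨i, hi, j, hj, hij, h1, h2⟩ | ⟨i, hT, h1⟩ |
    ⟨i, j, hij, hT, h1, h2⟩ | ⟨i, j, hij, hT, h1, h2⟩
  · left
    simp only [Finset.mem_filter, Finset.mem_univ, true_and] at hi hj
    exact ⟨hb4, ⟨i, j, hij, h1, h2, hi, hj⟩, heq⟩
  · right; left
    refine ⟨i, h1, ?_, fun l hl => hsupp hT l (by simpa using hl)⟩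
    have h3 := hsum hT 1
    rw [Finset.sum_singleton, h1] at h3
    simp only [Units.val_one, one_mul] at h3
    exact two_mul_eq_zero (by omega)
  · right; right; left
    have hai : a i ≠ 0 := by
      have : i ∈ Finset.univ.filter (fun i => a i ≠ 0) := by rw [hT]; simp
      simpa using this
    have h3 : ∀ u : (ZMod m)ˣ, 3 * ((u : ZMod m) * a i).val + ((u : ZMod m) * a j).val = 2 * m := by
      intro u
      have h4 := hsum hT u
      rw [Finset.sum_insert (by simpa using hij), Finset.sum_singleton, h1, h2] at h4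
      omega
    obtain ⟨h5, h6⟩ := three_one hai h3
    exact ⟨i, j, hij, h1, h2, h5, h6, fun l hl hl' => hsupp hT l (by simp [hl, hl'])⟩
  · right; right; right
    refine ⟨i, j, hij, h1, h2, ?_, fun l hl hl' => hsupp hT l (by simp [hl, hl'])⟩
    have h4 := hsum hT 1
    rw [Finset.sum_insert (by simpa using hij), Finset.sum_singleton, h1, h2] at h4
    simp only [Units.val_one, one_mul] at h4
    have h5 : (((a i).val + (a j).val : ℕ) : ZMod m) = 0 := by
      have : (a i).val + (a j).val = m := by omega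
      rw [this, ZMod.natCast_self]
    push_cast at h5
    rw [ZMod.natCast_zmod_val, ZMod.natCast_zmod_val] at h5
    exact eq_neg_of_add_eq_zero_left h5

end Pool.Agent.Q63.PC
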