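import Mathlib
import Pool.Agent.Q63.PC.Gal
import Pool.Agent.Q63.PC.Num
import Pool.Agent.Q63.KU.Dec

set_option autoImplicit false

namespace Pool.Agent.Q63.PC

open Multiplicative Pool.Agent.Q63.KU

variable {m s : ℕ} [NeZero m] {d : Fin s → ℕ} {ψ : AddChar (ZMod m) ℂ} {V W : Type}
  [AddCommGroup V] [Module ℂ V] [AddCommGroup W] [Module ℂ W]
  {ρ : Representation ℂ (Multiplicative (Fin s → ZMod m)) V}
  {τ : Representation ℂ (Multiplicative (Fin s → ZMod m)) W}

omit [NeZero m] in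
lemma Eigen.kerFixed {a : Fin s → ZMod m} {v : V} (h : Eigen ψ ρ a v) : KerFixed ρ a v := by
  intro g hg
  rw [h g, hg, AddChar.map_zero_eq_one, one_smul]

lemma Eigen.weight (hψ : ψ.IsPrimitive) (hX : PlaneCover d ψ ρ τ) {a : Fin s → ZMod m} {v : V}
    (h : Eigen ψ ρ a v) (hv : v ≠ 0) : ∑ i, a i * (d i : ZMod m) = 0 := by
  have h1 := h (fun i => (d i : ZMod m))
  rw [hX.relation] at h1
  have h2 : (1 - ψ (∑ i, a i * (d i : ZMod m))) • v = 0 := by
    rw [sub_smul, one_smul, ← h1, sub_self]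
  rcases smul_eq_zero.1 h2 with h3 | h3
  · exact prim_inj hψ (by linear_combination -h3)
  · exact absurd h3 hv

/-- no two-forms for all conjugates: no zero-cycles -/
lemma Eigen.eq_zero (hψ : ψ.IsPrimitive) (hd : ∀ i, 1 ≤ d i) (hX : PlaneCover d ψ ρ τ)
    {a : Fin s → ZMod m} {v : V} (h : Eigen ψ ρ a v)
    (hlt : ∀ u : (ZMod m)ˣ, num d (fun i => (u : ZMod m) * a i) < 3 * m) : v = 0 := by
  by_contra hv
  have ha := h.weight hψ hX hv
  rcases classify hd ha hlt with h1 | ⟨h1, h2, h3⟩ | ⟨i, h1, h2, h3⟩ | ⟨i, j, h1, h2, h3, h4, h5, h6⟩ |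
    ⟨i, j, h1, h2, h3, h4, h5⟩
  · exact hv (hX.three a h1 v h.kerFixed)
  · exact hv (hX.lines a h1 h2 h3 v h)
  · exact hv (hX.quartic a i h1 h2 h3 v h.kerFixed)
  · exact hv (hX.cubic a i j h1 h2 h3 h4 h5 h6 v h.kerFixed)
  · exact hv (hX.conics a i j h1 h2 h3 h4 h5 v h.kerFixed)

theorem eigen_comp (v : V) (a : Fin s → ZMod m) : Eigen ψ ρ a (comp ρ ψ v a) :=
  fun h => act_comp v a h

/-- correspondences in the rational group ring -/
theorem groupRing (hψ : ψ.IsPrimitive) (hd : ∀ i, 1 ≤ d i) (hX : PlaneCover d ψ ρ τ)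
    (c : (Fin s → ZMod m) → ℚ) (hc : ∀ w : W, ∑ h, (c h : ℂ) • τ (ofAdd h) w = 0) (v : V) :
    ∑ h, (c h : ℂ) • ρ (ofAdd h) v = 0 := by
  have key : ∀ (a : Fin s → ZMod m) (x : V), Eigen ψ ρ a x → ∑ h, (c h : ℂ) • ρ (ofAdd h) x = 0 := by
    intro a x hx
    have h1 : ∑ h, (c h : ℂ) • ρ (ofAdd h) x = (∑ h, (c h : ℂ) * ψ (∑ i, a i * h i)) • x := by
      rw [Finset.sum_smul]
      exact Finset.sum_congr rfl fun h _ => by rw [hx h, smul_smul]
    rw [h1]
    by_cases h0 : ∑ h, (c h : ℂ) * ψ (∑ i, a i * h i) = 0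
    · rw [h0, zero_smul]
    · rw [show x = 0 from ?_, smul_zero]
      by_cases hx0 : x = 0
      · exact hx0
      have ha := hx.weight hψ hX hx0
      refine hx.eq_zero hψ hd hX fun u => ?_
      by_contra hcon
      push Not at hcon
      have hau : ∑ i, ((u : ZMod m) * a i) * (d i : ZMod m) = 0 := by
        have : ∑ i, ((u : ZMod m) * a i) * (d i : ZMod m) = (u : ZMod m) * ∑ i, a i * (d i : ZMod m) := by
          rw [Finset.mul_sum]
          exact Finset.sum_congr rfl fun i _ => by ring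
        rw [this, ha, mul_zero]
      obtain ⟨w, hw0, hw⟩ := hX.forms _ hau hcon
      have h2 := hc w
      have h3 : ∑ h, (c h : ℂ) • τ (ofAdd h) w =
          (∑ h, (c h : ℂ) * ψ ((u : ZMod m) * ∑ i, a i * h i)) • w := by
        rw [Finset.sum_smul]
        refine Finset.sum_congr rfl fun h _ => ?_
        rw [hw h, smul_smul]
        congr 3
        rw [Finset.mul_sum]
        exact Finset.sum_congr rfl fun i _ => by ring
      rw [h3] at h2
      rcases smul_eq_zero.1 h2 with h4 | h4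
      · have h5 := galois hψ Finset.univ c (fun h : Fin s → ZMod m => (u : ZMod m) * ∑ i, a i * h i) u⁻¹ h4
        apply h0
        rw [← h5]
        refine Finset.sum_congr rfl fun h _ => ?_
        congr 2
        rw [← mul_assoc]
        simp
      · exact hw0 h4
  have h1 := sum_comp (ρ := ρ) hψ v
  rw [← h1]
  simp_rw [map_sum, Finset.smul_sum]
  rw [Finset.sum_comm]
  exact Finset.sum_eq_zero fun a _ => key a _ (eigen_comp v a)

/-- quotients without two-forms -/
theorem quotient (hψ : ψ.IsPrimitive) (hd : ∀ i, 1 ≤ d i) (hX : PlaneCover d ψ ρ τ)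
    (H : AddSubgroup (Fin s → ZMod m))
    (hH : ∀ a : Fin s → ZMod m, (∀ h ∈ H, ∑ i, a i * h i = 0) → ∑ i, a i * (d i : ZMod m) = 0 →
      num d a < 3 * m) (v : V) (hv : ∀ h ∈ H, ρ (ofAdd h) v = v) : v = 0 := by
  rw [← sum_comp (ρ := ρ) hψ v]
  refine Finset.sum_eq_zero fun a _ => ?_
  by_contra h0
  have he := eigen_comp (ψ := ψ) (ρ := ρ) v a
  have ha := he.weight hψ hX h0
  have hfix : ∀ h ∈ H, ρ (ofAdd h) (comp ρ ψ v a) = comp ρ ψ v a := by
    intro h hh
    have h1 : ρ (ofAdd h) (comp ρ ψ v a) = comp ρ ψ (ρ (ofAdd h) v) a := by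
      unfold comp
      rw [map_smul, map_sum]
      congr 1
      refine Finset.sum_congr rfl fun g _ => ?_
      have h2 : ρ (ofAdd h) (ρ (ofAdd g) v) = ρ (ofAdd g) (ρ (ofAdd h) v) := by
        have h3 := congrArg (fun x => ρ x v) (mul_comm (ofAdd h) (ofAdd g))
        simpa only [map_mul, Module.End.mul_apply] using h3
      rw [map_smul, h2]
    rw [h1, hv h hh]
  have hker : ∀ h ∈ H, ∑ i, a i * h i = 0 := by
    intro h hh
    have h1 := he h
    rw [hfix h hh] at h1
    have h2 : (1 - ψ (∑ i, a i * h i)) • comp ρ ψ v a = 0 := by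
      rw [sub_smul, one_smul, ← h1, sub_self]
    rcases smul_eq_zero.1 h2 with h3 | h3
    · exact prim_inj hψ (by linear_combination -h3)
    · exact absurd h3 h0
  refine h0 (he.eq_zero hψ hd hX fun u => hH _ (fun h hh => ?_) ?_)
  · have : ∑ i, ((u : ZMod m) * a i) * h i = (u : ZMod m) * ∑ i, a i * h i := by
      rw [Finset.mul_sum]
      exact Finset.sum_congr rfl fun i _ => by ring
    rw [this, hker h hh, mul_zero]
  · have : ∑ i, ((u : ZMod m) * a i) * (d i : ZMod m) = (u : ZMod m) * ∑ i, a i * (d i : ZMod m) := by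
      rw [Finset.mul_sum]
      exact Finset.sum_congr rfl fun i _ => by ring
    rw [this, ha, mul_zero]

end Pool.Agent.Q63.PC
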