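import Mathlib
import Pool.Agent.Q63.PC.Gal
import Pool.Agent.Q63.PC.Defs
import Pool.Agent.Q63.KU.Dec

set_option autoImplicit false

namespace Pool.Agent.Q63.PC

open Multiplicative Pool.Agent.Q63.KU

/-- If the `a`-part of `V` vanishes whenever the `u a`-parts of `W` vanish for all units `u`, then an element
of the rational group ring which annihilates `W` annihilates `V`. -/
theorem groupRing_gen {m s : ℕ} [NeZero m] {ψ : AddChar (ZMod m) ℂ} (hψ : ψ.IsPrimitive) {V W : Type}
    [AddCommGroup V] [Module ℂ V] [AddCommGroup W] [Module ℂ W]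
    {ρ : Representation ℂ (Multiplicative (Fin s → ZMod m)) V}
    {τ : Representation ℂ (Multiplicative (Fin s → ZMod m)) W}
    (hV : ∀ (a : Fin s → ZMod m) (v : V), Eigen ψ ρ a v →
      (∀ (u : (ZMod m)ˣ) (w : W), Eigen ψ τ (fun i => (u : ZMod m) * a i) w → w = 0) → v = 0)
    (c : (Fin s → ZMod m) → ℚ) (hc : ∀ w : W, ∑ h, (c h : ℂ) • τ (ofAdd h) w = 0) (v : V) :
    ∑ h, (c h : ℂ) • ρ (ofAdd h) v = 0 := by
  have key : ∀ (a : Fin s → ZMod m) (x : V), Eigen ψ ρ a x → ∑ h, (c h : ℂ) • ρ (ofAdd h) x = 0 := by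
    intro a x hx
    have h1 : ∑ h, (c h : ℂ) • ρ (ofAdd h) x = (∑ h, (c h : ℂ) * ψ (∑ i, a i * h i)) • x := by
      rw [Finset.sum_smul]
      exact Finset.sum_congr rfl fun h _ => by rw [hx h, smul_smul]
    rw [h1]
    by_cases h0 : ∑ h, (c h : ℂ) * ψ (∑ i, a i * h i) = 0
    · rw [h0, zero_smul]
    · rw [hV a x hx, smul_zero]
      intro u w hw
      by_contra hw0
      have h2 := hc w
      have h3 : ∑ h, (c h : ℂ) • τ (ofAdd h) w =
          (∑ h, (c h : ℂ) * ψ ((u : ZMod m) * ∑ i, a i * h i)) • w := by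
        rw [Finset.sum_smul]
        refine Finset.sum_congr rfl fun h _ => ?_
        rw [hw h, smul_smul]
        congr 3
        rw [Finset.mul_sum]
        exact Finset.sum_congr rfl fun i _ => by ring
      rw [h3] at h2
      rcases smul_eq_zero.1 h2 with h4 | h4
      · have h5 := galois hψ Finset.univ c (fun h : Fin s → ZMod m => (u : ZMod m) * ∑ i, a i * h i) u⁻¹ h4
        apply h0
        rw [← h5]
        refine Finset.sum_congr rfl fun h _ => ?_
        congr 2
        rw [← mul_assoc]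
        simp
      · exact hw0 h4
  rw [← sum_comp (ρ := ρ) hψ v]
  simp_rw [map_sum, Finset.smul_sum]
  rw [Finset.sum_comm]
  exact Finset.sum_eq_zero fun a _ => key a _ (fun h => act_comp v a h)

end Pool.Agent.Q63.PC
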